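import Mathlib

/-!
# A computable linear order of type `ω + ω*` whose `ω` part is not computable

`f` is a function which lists, together with each number `t` itself, the members of the halting
set.  A number `s` is a true stage if `f s ≤ f u` for all `u > s`.
-/

set_option autoImplicit false

namespace Pool.Agent.V5helper69.IA

open Nat.Partrec

/-- the `i`-th program stops on input `0` within `k` steps -/
def hs (k i : ℕ) : Bool := (Code.evaln k (Denumerable.ofNat Code i) 0).isSome

/-- the enumerating function -/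
def f (t : ℕ) : ℕ :=
  if (hs (t.unpair.2 + 1) t.unpair.1 && !(hs t.unpair.2 t.unpair.1)) = true then t.unpair.1 else t

theorem hs_mono {k l i : ℕ} (h : k ≤ l) (hk : hs k i = true) : hs l i = true := by
  unfold hs at *
  obtain ⟨x, hx⟩ := Option.isSome_iff_exists.1 hk
  exact Option.isSome_iff_exists.2 ⟨x, Code.evaln_mono h hx⟩

theorem hs_iff (i : ℕ) : (∃ k, hs k i = true) ↔ ((Denumerable.ofNat Code i).eval 0).Dom := by
  constructor
  · rintro ⟨k, hk⟩
    obtain ⟨x, hx⟩ := Option.isSome_iff_exists.1 hk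
    exact Part.dom_iff_mem.2 ⟨x, Code.evaln_sound hx⟩
  · intro h
    obtain ⟨x, hx⟩ := Part.dom_iff_mem.1 h
    obtain ⟨k, hk⟩ := Code.evaln_complete.1 hx
    exact ⟨k, Option.isSome_iff_exists.2 ⟨x, hk⟩⟩

theorem f_le (t : ℕ) : f t ≤ t := by
  unfold f
  split
  · exact Nat.unpair_left_le t
  · exact le_rfl

/-- every value is eventually left -/
theorem f_ne (v : ℕ) : ∃ N, ∀ t ≥ N, f t ≠ v := by
  by_cases h : ∃ k, hs k v = true
  · obtain ⟨k, hk⟩ := h
    refine ⟨max (v + 1) (Nat.pair v k + 1), fun t ht hf => ?_⟩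
    have h1 : v + 1 ≤ t := le_trans (le_max_left _ _) ht
    have h2 : Nat.pair v k + 1 ≤ t := le_trans (le_max_right _ _) ht
    unfold f at hf
    split at hf
    · rename_i hc
      rw [Bool.and_eq_true, Bool.not_eq_true', hf] at hc
      have h3 : t.unpair.2 < k := by
        by_contra h4
        have := hs_mono (not_lt.1 h4) hk
        rw [hc.2] at this
        exact Bool.noConfusion this
      have h5 : Nat.pair v t.unpair.2 < Nat.pair v k := Nat.pair_lt_pair_right v h3
      have h6 : Nat.pair v t.unpair.2 = t := by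
        conv_rhs => rw [← Nat.pair_unpair t, hf]
      omega
    · omega
  · refine ⟨v + 1, fun t ht hf => ?_⟩
    unfold f at hf
    split at hf
    · rename_i hc
      rw [Bool.and_eq_true, hf] at hc
      exact h ⟨_, hc.1⟩
    · omega

theorem f_tendsto (i : ℕ) : ∃ N, ∀ t ≥ N, i < f t := by
  induction i with
  | zero =>
    obtain ⟨N, hN⟩ := f_ne 0
    exact ⟨N, fun t ht => Nat.pos_of_ne_zero (hN t ht)⟩
  | succ i ih =>
    obtain ⟨N, hN⟩ := ih
    obtain ⟨M, hM⟩ := f_ne (i + 1)
    refine ⟨max N M, fun t ht => ?_⟩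
    have h1 := hN t (le_trans (le_max_left _ _) ht)
    have h2 := hM t (le_trans (le_max_right _ _) ht)
    omega

/-- `s` looks true at stage `t` -/
def T (s t : ℕ) : Prop := ∀ u, u < t + 1 → (s < u → f s ≤ f u)

/-- `s` is a true stage -/
def Tr (s : ℕ) : Prop := ∀ u, s < u → f s ≤ f u

theorem exists_true (N i : ℕ) : ∃ s, N ≤ s ∧ i < f s ∧ Tr s := by
  obtain ⟨M, hM⟩ := f_tendsto i
  classical
  have hne : ∃ v, ∃ s, max N M ≤ s ∧ f s = v := ⟨_, max N M, le_rfl, rfl⟩
  obtain ⟨s, hs1, hs2⟩ := Nat.find_spec hne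
  refine ⟨s, le_trans (le_max_left _ _) hs1, hM s (le_trans (le_max_right _ _) hs1), fun u hu => ?_⟩
  rw [hs2]
  exact Nat.find_min' hne ⟨u, le_trans hs1 hu.le, rfl⟩

/-- the order -/
def le2 (s t : ℕ) : Prop := (s ≤ t ∧ T s t) ∨ (t < s ∧ ¬ T t s)

theorem T_of_le {s t t' : ℕ} (h : t ≤ t') (hT : T s t') : T s t :=
  fun u hu hs => hT u (by omega) hs

theorem T_self (s : ℕ) : T s s := fun u hu hs => by omega

theorem T_trans {a b c : ℕ} (hab : a ≤ b) (h1 : T a b) (h2 : T b c) : T a c := by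
  intro u hu hau
  rcases le_or_gt u b with h | h
  · exact h1 u (by omega) hau
  · rcases hab.eq_or_lt with rfl | h3
    · exact h2 u hu h
    · exact le_trans (h1 b (by omega) h3) (h2 u hu h)

theorem le2_refl (s : ℕ) : le2 s s := Or.inl ⟨le_rfl, T_self s⟩

theorem le2_total (s t : ℕ) : le2 s t ∨ le2 t s := by
  rcases lt_trichotomy s t with h | h | h
  · by_cases hT : T s t
    · exact Or.inl (Or.inl ⟨h.le, hT⟩)
    · exact Or.inr (Or.inr ⟨h, hT⟩)
  · subst h; exact Or.inl (le2_refl s)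
  · by_cases hT : T t s
    · exact Or.inr (Or.inl ⟨h.le, hT⟩)
    · exact Or.inl (Or.inr ⟨h, hT⟩)

theorem le2_antisymm {s t : ℕ} (h1 : le2 s t) (h2 : le2 t s) : s = t := by
  rcases h1 with ⟨a1, b1⟩ | ⟨a1, b1⟩ <;> rcases h2 with ⟨a2, b2⟩ | ⟨a2, b2⟩
  · omega
  · exact absurd b1 b2
  · exact absurd b2 b1
  · omega

theorem le2_trans {a b c : ℕ} (h1 : le2 a b) (h2 : le2 b c) : le2 a c := by
  rcases h1 with ⟨a1, b1⟩ | ⟨a1, b1⟩ <;> rcases h2 with ⟨a2, b2⟩ | ⟨a2, b2⟩
  · exact Or.inl ⟨a1.trans a2, T_trans a1 b1 b2⟩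
  · -- a ≤ b, c < b, ¬ T c b
    rcases le_or_gt a c with h | h
    · exact Or.inl ⟨h, T_of_le a2.le b1⟩
    · refine Or.inr ⟨h, fun h3 => b2 (T_trans h.le h3 b1)⟩
  · -- b < a, ¬ T b a, b ≤ c, T b c
    rcases le_or_gt a c with h | h
    · exact absurd (T_of_le h b2) b1
    · exact Or.inr ⟨h, fun h3 => b1 (T_trans a2 b2 h3)⟩
  · exact Or.inr ⟨a2.trans a1, fun h3 => b2 (T_of_le a1.le h3)⟩

/-- the natural numbers with the new order -/
@[ext] structure W where
  n : ℕ

noncomputable instance : LinearOrder W where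
  le a b := le2 a.n b.n
  le_refl a := le2_refl a.n
  le_trans _ _ _ := le2_trans
  le_antisymm _ _ h1 h2 := W.ext (le2_antisymm h1 h2)
  le_total a b := le2_total a.n b.n
  toDecidableLE := Classical.decRel _

theorem W_le (a b : W) : a ≤ b ↔ le2 a.n b.n := Iff.rfl

/-- a true stage has only finitely many predecessors -/
theorem le_of_true {s y : ℕ} (hs : Tr s) (h : le2 y s) : y ≤ s := by
  by_contra hc
  rcases h with ⟨h1, _⟩ | ⟨_, h2⟩
  · omega
  · exact h2 fun u _ hu => hs u hu

/-- a false stage has only finitely many successors -/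
theorem of_false {s : ℕ} (hs : ¬ Tr s) : ∃ N, s < N ∧ ∀ y ≥ N, le2 y s := by
  unfold Tr at hs
  push Not at hs
  obtain ⟨u, hu, hf⟩ := hs
  refine ⟨u, hu, fun y hy => Or.inr ⟨by omega, fun h => ?_⟩⟩
  have := h u (by omega) hu
  omega

theorem finite_ge {s : ℕ} (hs : ¬ Tr s) : {y | le2 s y}.Finite := by
  obtain ⟨N, h1, h2⟩ := of_false hs
  refine (Set.finite_Iio N).subset fun y hy => ?_
  by_contra h
  have h3 : N ≤ y := not_lt.1 h
  have := le2_antisymm (h2 y h3) hy
  omega

theorem finite_le {s : ℕ} (hs : Tr s) : {y | le2 y s}.Finite :=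
  (Set.finite_Iic s).subset fun _ hy => le_of_true hs hy

/-- a nonempty set with an element that has finitely many predecessors has a least element -/
theorem exists_least {U : Set ℕ} {s : ℕ} (hs : s ∈ U) (hf : (U ∩ {y | le2 y s}).Finite) :
    ∃ m ∈ U, ∀ y ∈ U, le2 m y := by
  have hne : hf.toFinset.Nonempty := ⟨s, by simpa using ⟨hs, le2_refl s⟩⟩
  obtain ⟨m, hm, hm2⟩ := Finset.exists_min_image hf.toFinset W.mk hne
  rw [Set.Finite.mem_toFinset] at hm
  refine ⟨m, hm.1, fun y hy => ?_⟩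
  rcases le2_total y s with h | h
  · exact hm2 y ((Set.Finite.mem_toFinset hf).2 ⟨hy, h⟩)
  · exact le2_trans hm.2 h

theorem exists_bot : ∃ m, ∀ y, le2 m y := by
  obtain ⟨s, _, _, hs⟩ := exists_true 0 0
  obtain ⟨m, _, hm⟩ := exists_least (U := Set.univ) (s := s) trivial
    ((finite_le hs).subset fun y hy => hy.2)
  exact ⟨m, fun y => hm y trivial⟩

/-- every element which is not the greatest has a successor -/
theorem exists_succ (x : ℕ) : (∀ y, le2 y x) ∨
    ∃ y, ¬ le2 y x ∧ ∀ z, ¬ le2 z x → le2 y z := by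
  by_cases hx : ∀ y, le2 y x
  · exact Or.inl hx
  · right
    push Not at hx
    obtain ⟨y0, hy0⟩ := hx
    by_cases ht : Tr x
    · obtain ⟨s, h1, _, h3⟩ := exists_true (x + 1) 0
      have h4 : ¬ le2 s x := fun h => by
        have := le_of_true ht h
        omega
      exact exists_least (U := {z | ¬ le2 z x}) (s := s) h4
        ((finite_le h3).subset fun y hy => hy.2)
    · exact exists_least (U := {z | ¬ le2 z x}) (s := y0) hy0
        ((finite_ge ht).subset fun y hy => (le2_total y x).resolve_left hy.1)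

end Pool.Agent.V5helper69.IA
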