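import Mathlib
import Pool.Agent.V5helper69.IA.Order

/-!
# Computability of the order, and of the sets coded by natural numbers
-/

set_option autoImplicit false

namespace Pool.Agent.V5helper69.IA

open Nat.Partrec

theorem hs_primrec : Primrec₂ hs := by
  have h : Primrec fun p : ℕ × ℕ => (Code.evaln p.1 (Denumerable.ofNat Code p.2) 0).isSome :=
    Primrec.option_isSome.comp (Code.primrec_evaln.comp
      (Primrec.pair (Primrec.pair Primrec.fst ((Primrec.ofNat Code).comp Primrec.snd))
        (Primrec.const 0)))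
  exact h.to₂

theorem f_primrec : Primrec f := by
  have hk : Primrec fun t : ℕ => t.unpair.2 := Primrec.snd.comp Primrec.unpair
  have hi : Primrec fun t : ℕ => t.unpair.1 := Primrec.fst.comp Primrec.unpair
  have h1 : Primrec fun t : ℕ => hs (t.unpair.2 + 1) t.unpair.1 :=
    hs_primrec.comp (Primrec.succ.comp hk) hi
  have h2 : Primrec fun t : ℕ => hs t.unpair.2 t.unpair.1 := hs_primrec.comp hk hi
  have h3 : Primrec fun t : ℕ => (hs (t.unpair.2 + 1) t.unpair.1 && !(hs t.unpair.2 t.unpair.1)) :=
    Primrec.and.comp h1 (Primrec.not.comp h2)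
  have h4 : PrimrecPred fun t : ℕ =>
      (hs (t.unpair.2 + 1) t.unpair.1 && !(hs t.unpair.2 t.unpair.1)) = true :=
    Primrec.eq.comp h3 (Primrec.const true)
  exact (Primrec.ite h4 hi Primrec.id).of_eq fun t => rfl

theorem T_primrec : PrimrecRel T := by
  have hR : PrimrecRel fun u s : ℕ => (s < u → f s ≤ f u) := by
    have h1 : PrimrecRel fun u s : ℕ => ¬ (s < u) ∨ f s ≤ f u :=
      PrimrecPred.or (PrimrecPred.not (Primrec.nat_lt.comp Primrec.snd Primrec.fst))
        (Primrec.nat_le.comp (f_primrec.comp Primrec.snd) (f_primrec.comp Primrec.fst))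
    exact h1.of_eq fun u s => by tauto
  exact (hR.forall_lt.comp (Primrec.succ.comp Primrec.snd) Primrec.fst).of_eq fun _ => Iff.rfl

theorem le2_primrec : PrimrecRel le2 := by
  have h1 : PrimrecPred fun p : ℕ × ℕ => p.1 ≤ p.2 ∧ T p.1 p.2 :=
    PrimrecPred.and (Primrec.nat_le.comp Primrec.fst Primrec.snd)
      (T_primrec.comp Primrec.fst Primrec.snd)
  have h2 : PrimrecPred fun p : ℕ × ℕ => p.2 < p.1 ∧ ¬ T p.2 p.1 :=
    PrimrecPred.and (Primrec.nat_lt.comp Primrec.snd Primrec.fst)
      (PrimrecPred.not (T_primrec.comp Primrec.snd Primrec.fst))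
  exact (PrimrecPred.or h1 h2).of_eq fun _ => Iff.rfl

theorem testBit_primrec : PrimrecRel fun s n : ℕ => n.testBit s = true := by
  have hpow : Primrec₂ fun a b : ℕ => a ^ b := Primrec₂.unpaired'.1 Nat.Primrec.pow
  have h1 : PrimrecPred fun p : ℕ × ℕ => p.2 / 2 ^ p.1 % 2 = 1 :=
    Primrec.eq.comp (Primrec.nat_mod.comp (Primrec.nat_div.comp Primrec.snd
      (hpow.comp (Primrec.const 2) Primrec.fst)) (Primrec.const 2)) (Primrec.const 1)
  exact h1.of_eq fun p => by
    show _ ↔ p.2.testBit p.1 = true
    rw [Nat.testBit_eq_decide_div_mod_eq]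
    simp

/-- the toggle relation: `s` is a member of the `n`-th finite set and `s` is below `x` -/
theorem tog_primrec : PrimrecRel fun (s : ℕ) (p : ℕ × ℕ) => p.1.testBit s = true ∧ le2 s p.2 :=
  PrimrecPred.and (testBit_primrec.comp Primrec.fst (Primrec.fst.comp Primrec.snd))
    (le2_primrec.comp Primrec.fst (Primrec.snd.comp Primrec.snd))

open Classical in
/-- number of toggles below `x` -/
noncomputable def cnt (n x : ℕ) : ℕ :=
  ((List.range (n + 1)).filter fun s => decide (n.testBit s = true ∧ le2 s x)).length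

theorem cnt_primrec : Primrec₂ cnt := by
  classical
  have h1 : Primrec fun p : ℕ × ℕ =>
      (List.filter (fun a => decide (p.1.testBit a = true ∧ le2 a p.2)) (List.range (p.1 + 1))) :=
    (PrimrecRel.listFilter tog_primrec).comp
      (Primrec.list_range.comp (Primrec.succ.comp Primrec.fst)) Primrec.id
  have h2 : Primrec fun p : ℕ × ℕ => cnt p.1 p.2 :=
    (Primrec.list_length.comp h1).of_eq fun p => by unfold cnt; congr!
  exact h2.to₂

/-- `x` belongs to the set coded by `n` -/
def Mem (x n : ℕ) : Prop := Odd (cnt n x)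

theorem mem_primrec : PrimrecRel Mem := by
  have h1 : PrimrecPred fun p : ℕ × ℕ => cnt p.2 p.1 % 2 = 1 :=
    Primrec.eq.comp (Primrec.nat_mod.comp (cnt_primrec.comp Primrec.snd Primrec.fst)
      (Primrec.const 2)) (Primrec.const 1)
  exact h1.of_eq fun p => by rw [Mem, Nat.odd_iff]

/-- a function that is found by an unbounded search is computable -/
theorem computable_of_search {α : Type} [Primcodable α] {p : α → ℕ → Prop}
    (hp : PrimrecRel p) (g : α → ℕ) (h1 : ∀ a, p a (g a)) (h2 : ∀ a k, p a k → k = g a) :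
    Computable g := by
  classical
  have h3 : Computable₂ fun a k => decide (p a k) := hp.decide.to_comp
  have h4 : Partrec fun a => Nat.rfind fun k => Part.some (decide (p a k)) :=
    Partrec.rfind h3.partrec₂
  refine h4.of_eq fun a => ?_
  apply Part.ext
  intro k
  constructor
  · intro hk
    have := Nat.rfind_spec hk
    simp only [Part.mem_some_iff] at this
    have h5 : p a k := by simpa using this.symm
    exact Part.mem_some_iff.2 (h2 a k h5)
  · intro hk
    have hk' : k = g a := Part.mem_some_iff.1 hk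
    refine Nat.mem_rfind.2 ⟨?_, fun {m} hm => ?_⟩
    · simp [hk', h1 a]
    · have : ¬ p a m := fun h => by
        have := h2 a m h
        omega
      simp [this]

end Pool.Agent.V5helper69.IA
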