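import Mathlib
import Pool.Agent.V5helper69.IA.Comp

/-!
# The algebra of finite and cofinite sets, presented by the interval algebra of the order
-/

set_option autoImplicit false

namespace Pool.Agent.V5helper69.IA

/-- the algebra of the finite and cofinite sets of natural numbers -/
def FC : BooleanSubalgebra (Set ℕ) where
  carrier := {X | X.Finite ∨ Xᶜ.Finite}
  supClosed' := by
    rintro X hX Y hY
    rcases hX with hX | hX
    · rcases hY with hY | hY
      · exact Or.inl (hX.union hY)
      · exact Or.inr (hY.subset (by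
          intro z hz
          simp only [Set.sup_eq_union, Set.mem_compl_iff, Set.mem_union, not_or] at hz ⊢
          exact hz.2))
    · exact Or.inr (hX.subset (by
          intro z hz
          simp only [Set.sup_eq_union, Set.mem_compl_iff, Set.mem_union, not_or] at hz ⊢
          exact hz.1))
  infClosed' := by
    rintro X hX Y hY
    rcases hX with hX | hX
    · exact Or.inl (hX.subset fun z hz => hz.1)
    · rcases hY with hY | hY
      · exact Or.inl (hY.subset fun z hz => hz.2)
      · refine Or.inr ((hX.union hY).subset ?_)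
        intro z hz
        simp only [Set.inf_eq_inter, Set.mem_compl_iff, Set.mem_inter_iff, not_and_or,
          Set.mem_union] at hz ⊢
        exact hz
  compl_mem' := by
    intro X hX
    rcases hX with hX | hX
    · exact Or.inr (by rwa [compl_compl])
    · exact Or.inl hX
  bot_mem' := Or.inl Set.finite_empty

theorem mem_FC {X : Set ℕ} : X ∈ FC ↔ X.Finite ∨ Xᶜ.Finite := Iff.rfl

/-- closure under symmetric differences, in terms of the values in `ZMod 2` -/
theorem FC_add {a b : ℕ → ZMod 2} (ha : {x | a x = 1} ∈ FC) (hb : {x | b x = 1} ∈ FC) :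
    {x | a x + b x = 1} ∈ FC := by
  have h : {x | a x + b x = 1} = ({x | a x = 1} \ {x | b x = 1}) ⊔ ({x | b x = 1} \ {x | a x = 1}) := by
    ext x
    simp only [Set.mem_ofPred_eq, Set.sup_eq_union, Set.mem_union, Set.mem_sdiff]
    generalize a x = u
    generalize b x = v
    revert u v
    decide
  rw [h]
  exact BooleanSubalgebra.sup_mem (BooleanSubalgebra.sdiff_mem ha hb)
    (BooleanSubalgebra.sdiff_mem hb ha)

section General

variable (r : ℕ → ℕ → Prop)

open Classical in
/-- the parity of the number of members of `S` that are below `x` -/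
noncomputable def v (S : Finset ℕ) (x : ℕ) : ZMod 2 := ∑ s ∈ S, if r s x then 1 else 0

theorem v_symmDiff (S T : Finset ℕ) (x : ℕ) : v r (symmDiff S T) x = v r S x + v r T x := by
  classical
  unfold v
  have h1 : symmDiff S T = (S \ T) ∪ (T \ S) := rfl
  have h2 : Disjoint (S \ T) (T \ S) := disjoint_sdiff_sdiff
  have e1 : ∑ s ∈ S, (if r s x then (1 : ZMod 2) else 0) =
      ∑ s ∈ S \ T, (if r s x then (1 : ZMod 2) else 0) +
      ∑ s ∈ S ∩ T, (if r s x then (1 : ZMod 2) else 0) := by
    rw [← Finset.sum_union (Finset.disjoint_left.2 (by simp; tauto))]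
    congr 1
    ext; simp; tauto
  have e2 : ∑ s ∈ T, (if r s x then (1 : ZMod 2) else 0) =
      ∑ s ∈ T \ S, (if r s x then (1 : ZMod 2) else 0) +
      ∑ s ∈ S ∩ T, (if r s x then (1 : ZMod 2) else 0) := by
    rw [← Finset.sum_union (Finset.disjoint_left.2 (by simp; tauto))]
    congr 1
    ext; simp; tauto
  rw [h1, Finset.sum_union h2, e1, e2]
  generalize ∑ s ∈ S \ T, (if r s x then (1 : ZMod 2) else 0) = a
  generalize ∑ s ∈ T \ S, (if r s x then (1 : ZMod 2) else 0) = b
  generalize ∑ s ∈ S ∩ T, (if r s x then (1 : ZMod 2) else 0) = c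
  revert a b c
  decide

theorem v_empty (x : ℕ) : v r ∅ x = 0 := by simp [v]

theorem v_singleton (s x : ℕ) : v r {s} x = 1 ↔ r s x := by
  classical
  unfold v
  rw [Finset.sum_singleton]
  split <;> simp_all

theorem v_insert {s : ℕ} {S : Finset ℕ} (h : s ∉ S) (x : ℕ) :
    v r (insert s S) x = v r {s} x + v r S x := by
  classical
  unfold v
  rw [Finset.sum_insert h, Finset.sum_singleton]

open Classical in
theorem v_card (S : Finset ℕ) (x : ℕ) :
    v r S x = ((S.filter fun s => r s x).card : ZMod 2) := by
  unfold v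
  rw [Finset.sum_ite, Finset.sum_const_zero, add_zero, Finset.sum_const, nsmul_eq_mul, mul_one]

/-- sets that are given by a finite set of toggles -/
def Rep (X : Set ℕ) : Prop := ∃ S : Finset ℕ, ∀ x, x ∈ X ↔ v r S x = 1

theorem rep_symmDiff {X Y : Set ℕ} (hX : Rep r X) (hY : Rep r Y) :
    Rep r ((X \ Y) ∪ (Y \ X)) := by
  obtain ⟨S, hS⟩ := hX
  obtain ⟨T, hT⟩ := hY
  refine ⟨symmDiff S T, fun x => ?_⟩
  rw [v_symmDiff, Set.mem_union, Set.mem_sdiff, Set.mem_sdiff, hS, hT]
  generalize v r S x = a
  generalize v r T x = b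
  revert a b
  decide

theorem rep_finite (h1 : ∀ a, Rep r {a}) (F : Finset ℕ) : Rep r (F : Set ℕ) := by
  classical
  induction F using Finset.induction_on with
  | empty => exact ⟨∅, fun x => by simp [v_empty]⟩
  | insert a F ha ih =>
    have h2 := rep_symmDiff r (h1 a) ih
    convert h2 using 1
    ext y
    simp only [Finset.coe_insert, Set.mem_insert_iff, Finset.mem_coe, Set.mem_union,
      Set.mem_sdiff, Set.mem_singleton_iff]
    constructor
    · rintro (rfl | h)
      · exact Or.inl ⟨rfl, ha⟩
      · exact Or.inr ⟨h, fun h3 => ha (h3 ▸ h)⟩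
    · rintro (h | h)
      · exact Or.inl h.1
      · exact Or.inr h.1

theorem rep_of_mem (h1 : ∀ a, Rep r {a}) (h2 : Rep r Set.univ) {X : Set ℕ} (hX : X ∈ FC) :
    Rep r X := by
  rcases hX with hX | hX
  · have := rep_finite r h1 hX.toFinset
    rwa [Set.Finite.coe_toFinset] at this
  · have h3 := rep_finite r h1 hX.toFinset
    rw [Set.Finite.coe_toFinset] at h3
    have h4 := rep_symmDiff r h2 h3
    convert h4 using 1
    ext y
    simp

theorem mem_FC_of_rep (h : ∀ s, {x | r s x} ∈ FC) (S : Finset ℕ) : {x | v r S x = 1} ∈ FC := by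
  classical
  induction S using Finset.induction_on with
  | empty =>
    have : {x | v r ∅ x = 1} = (⊥ : Set ℕ) := by
      ext x; simp [v_empty]
    rw [this]
    exact BooleanSubalgebra.bot_mem
  | insert s S hs ih =>
    have h3 : {x | v r {s} x = 1} ∈ FC := by
      have : {x | v r {s} x = 1} = {x | r s x} := by
        ext x; exact v_singleton r s x
      rw [this]; exact h s
    have h4 := FC_add h3 ih
    have h5 : {x | v r (insert s S) x = 1} = {x | v r {s} x + v r S x = 1} := by
      ext x
      simp only [Set.mem_ofPred_eq, v_insert r hs]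
    rw [h5]
    exact h4

end General

/-! ### The order `le2` -/

theorem up_mem_FC (s : ℕ) : {x | le2 s x} ∈ FC := by
  by_cases hs : Tr s
  · refine Or.inr ((finite_le hs).subset fun x hx => ?_)
    exact (le2_total s x).resolve_left hx
  · exact Or.inl (finite_ge hs)

theorem rep_singleton (a : ℕ) : Rep le2 {a} := by
  rcases exists_succ a with h | ⟨y, h1, h2⟩
  · refine ⟨{a}, fun x => ?_⟩
    rw [v_singleton]
    exact ⟨fun hx => by rw [hx]; exact le2_refl a, fun hx => le2_antisymm (h x) hx⟩
  · refine ⟨symmDiff {a} {y}, fun x => ?_⟩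
    rw [v_symmDiff]
    have ea := v_singleton le2 a x
    have ey := v_singleton le2 y x
    have key : x ∈ ({a} : Set ℕ) ↔ (le2 a x ∧ ¬ le2 y x) := by
      constructor
      · intro hx
        rw [Set.mem_singleton_iff.1 hx]
        exact ⟨le2_refl a, h1⟩
      · rintro ⟨h3, h4⟩
        by_contra hne
        have h5 : ¬ le2 x a := fun h => hne (le2_antisymm h h3)
        exact h4 (h2 x h5)
    have h3 : le2 y x → le2 a x := fun h => le2_trans ((le2_total a y).resolve_right h1) h
    rw [key, ← ea, ← ey]
    rw [← ea, ← ey] at h3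
    revert h3
    generalize v le2 {a} x = p
    generalize v le2 {y} x = q
    revert p q
    decide

theorem rep_univ : Rep le2 Set.univ := by
  obtain ⟨m, hm⟩ := exists_bot
  exact ⟨{m}, fun x => by simp [v_singleton, hm x]⟩

theorem v_injective {S T : Finset ℕ} (h : ∀ x, v le2 S x = v le2 T x) : S = T := by
  classical
  by_contra hne
  have hD : (symmDiff S T).Nonempty := by
    rw [Finset.nonempty_iff_ne_empty]
    intro h0
    exact hne (symmDiff_eq_bot.1 h0)
  obtain ⟨d, hd, hd2⟩ := Finset.exists_min_image (symmDiff S T) W.mk hD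
  have h1 : v le2 (symmDiff S T) d = 1 := by
    unfold v
    rw [Finset.sum_eq_single d]
    · rw [if_pos (le2_refl d)]
    · intro b hb hbd
      rw [if_neg]
      intro h2
      exact hbd (le2_antisymm h2 (hd2 b hb))
    · intro h2; exact absurd hd h2
  rw [v_symmDiff, h d] at h1
  revert h1
  generalize v le2 T d = a
  revert a
  decide

theorem cnt_cast (n x : ℕ) : (cnt n x : ZMod 2) = v le2 (Finset.equivBitIndices n) x := by
  classical
  rw [v_card]
  congr 1
  unfold cnt
  have h : (List.filter (fun s => decide (n.testBit s = true ∧ le2 s x)) (List.range (n + 1))).Nodup :=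
    List.Nodup.filter _ List.nodup_range
  rw [← List.toFinset_card_of_nodup h]
  congr 1
  ext s
  simp only [List.mem_toFinset, List.mem_filter, List.mem_range, decide_eq_true_eq,
    Finset.mem_filter, Finset.equivBitIndices_apply, Nat.mem_bitIndices]
  constructor
  · rintro ⟨_, h2, h3⟩
    exact ⟨h2, h3⟩
  · rintro ⟨h2, h3⟩
    refine ⟨?_, h2, h3⟩
    have h4 : 2 ^ s ≤ n := Nat.two_pow_le_of_mem_bitIndices (Nat.mem_bitIndices.2 h2)
    have h5 : s < 2 ^ s := Nat.lt_two_pow_self
    omega

theorem mem_iff (x n : ℕ) : Mem x n ↔ v le2 (Finset.equivBitIndices n) x = 1 := by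
  rw [Mem, ← cnt_cast, ZMod.natCast_eq_one_iff_odd]

theorem mem_FC_code (n : ℕ) : {x | Mem x n} ∈ FC := by
  have h := mem_FC_of_rep le2 up_mem_FC (Finset.equivBitIndices n)
  convert h using 2
  ext x
  exact mem_iff x n

/-- the presentation -/
noncomputable def e : ℕ ≃ FC :=
  Equiv.ofBijective (fun n => ⟨{x | Mem x n}, mem_FC_code n⟩) (by
    constructor
    · intro m n h
      have h1 : ∀ x, Mem x m ↔ Mem x n := fun x => by
        have := congrArg (fun Y : FC => x ∈ (Y : Set ℕ)) h
        exact iff_of_eq this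
      apply Finset.equivBitIndices.injective
      apply v_injective
      intro x
      have h2 := h1 x
      rw [mem_iff, mem_iff] at h2
      revert h2
      generalize v le2 (Finset.equivBitIndices m) x = a
      generalize v le2 (Finset.equivBitIndices n) x = b
      revert a b
      decide
    · rintro ⟨X, hX⟩
      obtain ⟨S, hS⟩ := rep_of_mem le2 rep_singleton rep_univ hX
      refine ⟨Finset.equivBitIndices.symm S, ?_⟩
      apply Subtype.ext
      ext x
      show Mem x _ ↔ _
      rw [mem_iff, Equiv.apply_symm_apply, hS])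

theorem mem_e (x n : ℕ) : x ∈ (e n : Set ℕ) ↔ Mem x n := Iff.rfl

/-- every point has the same memberships as a small point -/
theorem exists_small {m N : ℕ} (hm : ∀ y, le2 m y) (hN : m ≤ N) (x : ℕ) :
    ∃ y, y < N + 1 ∧ ∀ n ≤ N, (Mem x n ↔ Mem y n) := by
  classical
  obtain ⟨y, hy, hy2⟩ := Finset.exists_max_image ((Finset.range (N + 1)).filter fun s => le2 s x)
    W.mk ⟨m, by simp [hm x]; omega⟩
  rw [Finset.mem_filter, Finset.mem_range] at hy
  refine ⟨y, hy.1, fun n hn => ?_⟩
  have : cnt n x = cnt n y := by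
    unfold cnt
    congr 1
    apply List.filter_congr
    intro s hs
    rw [List.mem_range] at hs
    rw [decide_eq_decide]
    refine and_congr_right fun _ => ⟨fun h => ?_, fun h => le2_trans h hy.2⟩
    exact hy2 s (Finset.mem_filter.2 ⟨Finset.mem_range.2 (by omega), h⟩)
  rw [Mem, Mem, this]

/-- operations on sets that are given by a propositional formula are computable -/
theorem op_computable (q : Prop → Prop → Prop)
    (hq : PrimrecRel fun (x : ℕ) (p : (ℕ × ℕ) × ℕ) => (Mem x p.2 ↔ q (Mem x p.1.1) (Mem x p.1.2)))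
    (g : ℕ → ℕ → ℕ) (hg : ∀ m n x, Mem x (g m n) ↔ q (Mem x m) (Mem x n)) : Computable₂ g := by
  obtain ⟨b, hb⟩ := exists_bot
  have hp : PrimrecRel fun (a : ℕ × ℕ) (k : ℕ) =>
      ∀ x ∈ List.range (k + a.1 + a.2 + b + 1), (Mem x k ↔ q (Mem x a.1) (Mem x a.2)) := by
    have h1 : Primrec fun p : (ℕ × ℕ) × ℕ => List.range (p.2 + p.1.1 + p.1.2 + b + 1) :=
      Primrec.list_range.comp (Primrec.succ.comp (Primrec.nat_add.comp (Primrec.nat_add.comp
        (Primrec.nat_add.comp Primrec.snd (Primrec.fst.comp Primrec.fst))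
        (Primrec.snd.comp Primrec.fst)) (Primrec.const b)))
    exact (hq.forall_mem_list.comp h1 Primrec.id).of_eq fun _ => Iff.rfl
  have h2 := computable_of_search hp (fun a => g a.1 a.2) (fun a x _ => hg a.1 a.2 x) (by
    intro a k h
    apply e.injective
    apply Subtype.ext
    ext x
    rw [mem_e, mem_e, hg]
    obtain ⟨y, hy, hy2⟩ := exists_small hb (N := k + a.1 + a.2 + b) (by omega) x
    rw [hy2 k (by omega), hy2 a.1 (by omega), hy2 a.2 (by omega)]
    exact h y (List.mem_range.2 hy))
  exact h2.to₂

end Pool.Agent.V5helper69.IA
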