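import Mathlib
import Pool.Agent.V5helper69.IA.Alg

/-!
# No computable copy of `ω` presents the given computable algebra
-/

set_option autoImplicit false

namespace Pool.Agent.V5helper69.IA

open Nat.Partrec

theorem sup_computable : Computable₂ fun m n : ℕ => e.symm (e m ⊔ e n) := by
  refine op_computable (fun a b => a ∨ b) ?_ _ fun m n x => ?_
  · have h1 : PrimrecPred fun a : ℕ × ((ℕ × ℕ) × ℕ) =>
        ((Mem a.1 a.2.2 ∧ (Mem a.1 a.2.1.1 ∨ Mem a.1 a.2.1.2)) ∨
          (¬ Mem a.1 a.2.2 ∧ ¬ (Mem a.1 a.2.1.1 ∨ Mem a.1 a.2.1.2))) := by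
      have p0 : PrimrecPred fun a : ℕ × ((ℕ × ℕ) × ℕ) => Mem a.1 a.2.2 :=
        mem_primrec.comp Primrec.fst (Primrec.snd.comp Primrec.snd)
      have p1 : PrimrecPred fun a : ℕ × ((ℕ × ℕ) × ℕ) => Mem a.1 a.2.1.1 :=
        mem_primrec.comp Primrec.fst (Primrec.fst.comp (Primrec.fst.comp Primrec.snd))
      have p2 : PrimrecPred fun a : ℕ × ((ℕ × ℕ) × ℕ) => Mem a.1 a.2.1.2 :=
        mem_primrec.comp Primrec.fst (Primrec.snd.comp (Primrec.fst.comp Primrec.snd))
      exact (p0.and (p1.or p2)).or (p0.not.and (p1.or p2).not)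
    exact h1.of_eq fun a => by
      show _ ↔ (Mem a.1 a.2.2 ↔ (Mem a.1 a.2.1.1 ∨ Mem a.1 a.2.1.2))
      tauto
  · rw [← mem_e, Equiv.apply_symm_apply]
    exact Iff.rfl

theorem inf_computable : Computable₂ fun m n : ℕ => e.symm (e m ⊓ e n) := by
  refine op_computable (fun a b => a ∧ b) ?_ _ fun m n x => ?_
  · have h1 : PrimrecPred fun a : ℕ × ((ℕ × ℕ) × ℕ) =>
        ((Mem a.1 a.2.2 ∧ (Mem a.1 a.2.1.1 ∧ Mem a.1 a.2.1.2)) ∨
          (¬ Mem a.1 a.2.2 ∧ ¬ (Mem a.1 a.2.1.1 ∧ Mem a.1 a.2.1.2))) := by
      have p0 : PrimrecPred fun a : ℕ × ((ℕ × ℕ) × ℕ) => Mem a.1 a.2.2 :=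
        mem_primrec.comp Primrec.fst (Primrec.snd.comp Primrec.snd)
      have p1 : PrimrecPred fun a : ℕ × ((ℕ × ℕ) × ℕ) => Mem a.1 a.2.1.1 :=
        mem_primrec.comp Primrec.fst (Primrec.fst.comp (Primrec.fst.comp Primrec.snd))
      have p2 : PrimrecPred fun a : ℕ × ((ℕ × ℕ) × ℕ) => Mem a.1 a.2.1.2 :=
        mem_primrec.comp Primrec.fst (Primrec.snd.comp (Primrec.fst.comp Primrec.snd))
      exact (p0.and (p1.and p2)).or (p0.not.and (p1.and p2).not)
    exact h1.of_eq fun a => by
      show _ ↔ (Mem a.1 a.2.2 ↔ (Mem a.1 a.2.1.1 ∧ Mem a.1 a.2.1.2))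
      tauto
  · rw [← mem_e, Equiv.apply_symm_apply]
    exact Iff.rfl

theorem compl_computable : Computable fun n : ℕ => e.symm (e n)ᶜ := by
  have h : Computable₂ fun m n : ℕ => e.symm (e m)ᶜ := by
    refine op_computable (fun a _ => ¬ a) ?_ _ fun m n x => ?_
    · have h1 : PrimrecPred fun a : ℕ × ((ℕ × ℕ) × ℕ) =>
          ((Mem a.1 a.2.2 ∧ ¬ Mem a.1 a.2.1.1) ∨ (¬ Mem a.1 a.2.2 ∧ Mem a.1 a.2.1.1)) := by
        have p0 : PrimrecPred fun a : ℕ × ((ℕ × ℕ) × ℕ) => Mem a.1 a.2.2 :=
          mem_primrec.comp Primrec.fst (Primrec.snd.comp Primrec.snd)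
        have p1 : PrimrecPred fun a : ℕ × ((ℕ × ℕ) × ℕ) => Mem a.1 a.2.1.1 :=
          mem_primrec.comp Primrec.fst (Primrec.fst.comp (Primrec.fst.comp Primrec.snd))
        exact (p0.and p1.not).or (p0.not.and p1)
      exact h1.of_eq fun a => by
        show _ ↔ (Mem a.1 a.2.2 ↔ ¬ Mem a.1 a.2.1.1)
        tauto
    · rw [← mem_e, Equiv.apply_symm_apply]
      exact Iff.rfl
  exact h.comp Computable.id (Computable.const 0)

/-- the sets given by toggles in the standard order of the natural numbers -/
def Std : Set (Set ℕ) := {X : Set ℕ | ∃ S : Finset ℕ, ∃ b : Bool,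
  X = {x : ℕ | Xor' (b = true) (Odd (S.filter (fun s => s ≤ x)).card)}}

theorem v_std (S : Finset ℕ) (x : ℕ) :
    v (fun a b => a ≤ b) S x = 1 ↔ Odd (S.filter (fun s => s ≤ x)).card := by
  rw [v_card, ZMod.natCast_eq_one_iff_odd]
  congr! 2
  ext s
  simp only [Finset.mem_filter]

theorem mem_Std {X : Set ℕ} : X ∈ Std ↔ X ∈ FC := by
  constructor
  · rintro ⟨S, b, rfl⟩
    have h1 : {x | v (fun a b => a ≤ b) S x = 1} ∈ FC :=
      mem_FC_of_rep (fun a b => a ≤ b) (fun s => Or.inr (by
        refine (Set.finite_Iio s).subset fun x hx => ?_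
        simpa using hx)) S
    cases b with
    | false =>
      have h2 : {x : ℕ | Xor' (false = true) (Odd (S.filter (fun s => s ≤ x)).card)} =
          {x | v (fun a b => a ≤ b) S x = 1} := by
        ext x
        show Xor' (false = true) (Odd (S.filter (fun s => s ≤ x)).card) ↔
          v (fun a b => a ≤ b) S x = 1
        rw [v_std]
        simp [Xor']
      rw [h2]; exact h1
    | true =>
      have h2 : {x : ℕ | Xor' (true = true) (Odd (S.filter (fun s => s ≤ x)).card)} =
          {x | v (fun a b => a ≤ b) S x = 1}ᶜ := by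
        ext x
        show Xor' (true = true) (Odd (S.filter (fun s => s ≤ x)).card) ↔
          ¬ v (fun a b => a ≤ b) S x = 1
        rw [v_std]
        simp [Xor']
      rw [h2]; exact BooleanSubalgebra.compl_mem h1
  · intro hX
    obtain ⟨S, hS⟩ := rep_of_mem (fun a b : ℕ => a ≤ b) (fun a => ⟨{a, a + 1}, fun x => by
      rw [v_std, Finset.filter_insert, Finset.filter_singleton, Set.mem_singleton_iff]
      rcases lt_trichotomy x a with h | h | h
      · rw [if_neg (by omega), if_neg (by omega)]
        simp; omega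
      · rw [if_pos (by omega), if_neg (by omega)]
        simp [h]
      · rw [if_pos (by omega), if_pos (by omega), Finset.card_pair (by omega)]
        have : ¬ Odd 2 := by decide
        simp only [this, iff_false]; omega⟩)
      ⟨{0}, fun x => by
        rw [v_std, Finset.filter_singleton, if_pos (Nat.zero_le x)]
        simp⟩ hX
    refine ⟨S, false, ?_⟩
    ext x
    rw [hS, v_std]
    simp [Xor']

/-- finiteness of a set given by toggles in the standard order -/
theorem finite_toggles (L : List ℕ) (l : ℕ → ℕ) (b : Bool) :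
    {x : ℕ | Xor' (b = true) (Odd (L.filter (fun s => decide (l s ≤ x))).length)}.Finite ↔
      (b = true ↔ Odd L.length) := by
  -- beyond `N` all toggles count
  obtain ⟨N, hN⟩ : ∃ N, ∀ s ∈ L, l s ≤ N := by
    induction L with
    | nil => exact ⟨0, by simp⟩
    | cons a L ih =>
      obtain ⟨N, hN⟩ := ih
      refine ⟨max N (l a), fun s hs => ?_⟩
      rcases List.mem_cons.1 hs with rfl | h
      · exact le_max_right _ _
      · exact le_trans (hN s h) (le_max_left _ _)
  have key : ∀ x, N ≤ x → L.filter (fun s => decide (l s ≤ x)) = L := by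
    intro x hx
    rw [List.filter_eq_self]
    intro s hs
    exact decide_eq_true (le_trans (hN s hs) hx)
  constructor
  · intro hfin
    by_contra hne
    have hsub : Set.Ici N ⊆
        {x : ℕ | Xor' (b = true) (Odd (L.filter (fun s => decide (l s ≤ x))).length)} := by
      intro x hx
      show Xor' (b = true) (Odd (L.filter (fun s => decide (l s ≤ x))).length)
      rw [key x hx]
      rw [Xor']
      unfold Xor
      tauto
    exact (Set.Ici_infinite N) (hfin.subset hsub)
  · intro h
    refine (Set.finite_Iio N).subset fun x hx => ?_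
    by_contra hc
    have hx' : Xor' (b = true) (Odd (L.filter (fun s => decide (l s ≤ x))).length) := hx
    rw [key x (not_lt.1 hc)] at hx'
    unfold Xor' Xor at hx'
    tauto

/-- the set of codes of finite sets is not computable -/
theorem not_computable_finite : ¬ ComputablePred fun n : ℕ => (e n : Set ℕ).Finite := by
  intro hfin
  -- true stages are computable
  have hpow : Primrec fun s : ℕ => 2 ^ s :=
    (Primrec₂.unpaired'.1 Nat.Primrec.pow).comp (Primrec.const 2) Primrec.id
  have h1 : ∀ s, (e (2 ^ s) : Set ℕ) = {x | le2 s x} := by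
    intro s
    ext x
    rw [mem_e, mem_iff]
    show _ ↔ le2 s x
    rw [← v_singleton le2 s x]
    have : Finset.equivBitIndices (2 ^ s) = {s} := by
      rw [Finset.equivBitIndices_apply, Nat.bitIndices_two_pow]; rfl
    rw [this]
  have h2 : ∀ s, Tr s ↔ ¬ (e (2 ^ s) : Set ℕ).Finite := by
    intro s
    rw [h1]
    constructor
    · intro hs hf
      have : (Set.univ : Set ℕ).Finite := by
        refine (hf.union (finite_le hs)).subset fun x _ => ?_
        exact le2_total s x
      exact Set.infinite_univ this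
    · intro h
      by_contra hs
      exact h (finite_ge hs)
  have h3 : ComputablePred Tr := by
    obtain ⟨D, hD⟩ := hfin
    refine ⟨Classical.decPred _, ?_⟩
    have h4 : Computable fun s : ℕ => !(decide ((e (2 ^ s) : Set ℕ).Finite)) :=
      Primrec.not.to_comp.comp (hD.comp hpow.to_comp)
    refine h4.of_eq fun s => ?_
    by_cases hs : Tr s
    · have := (h2 s).1 hs
      simp [hs, this]
    · have h5 : (e (2 ^ s) : Set ℕ).Finite := by
        by_contra h6; exact hs ((h2 s).2 h6)
      simp [hs, h5]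
  -- the halting set is computable
  apply ComputablePred.halting_problem 0
  obtain ⟨D, hD⟩ := h3
  have h5 : Partrec fun c : Code =>
      Nat.rfind fun s => Part.some (decide (Tr s) && decide (Encodable.encode c < f s)) := by
    have h6 : Computable₂ fun (c : Code) (s : ℕ) =>
        (decide (Tr s) && decide (Encodable.encode c < f s)) := by
      refine (Primrec.and.to_comp).comp (hD.comp Computable.snd) ?_
      have h7 : PrimrecPred fun p : Code × ℕ => Encodable.encode p.1 < f p.2 :=
        Primrec.nat_lt.comp (Primrec.encode.comp Primrec.fst) (f_primrec.comp Primrec.snd)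
      exact h7.decide.to_comp
    exact Partrec.rfind h6.partrec₂
  have hdom : ∀ c : Code, (Nat.rfind fun s =>
      Part.some (decide (Tr s) && decide (Encodable.encode c < f s))).Dom := by
    intro c
    obtain ⟨s, _, h6, h7⟩ := exists_true 0 (Encodable.encode c)
    refine Nat.rfind_dom.2 ⟨s, ?_, fun _ => trivial⟩
    simp [h6, h7]
  have h8 : Computable fun c : Code =>
      (Nat.rfind fun s => Part.some (decide (Tr s) && decide (Encodable.encode c < f s))).get
        (hdom c) := by
    refine h5.of_eq fun c => ?_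
    exact (Part.some_get (hdom c)).symm
  have h9 : Computable fun c : Code => hs ((Nat.rfind fun s =>
      Part.some (decide (Tr s) && decide (Encodable.encode c < f s))).get
        (hdom c) + 1) (Encodable.encode c) :=
    hs_primrec.to_comp.comp (Computable.succ.comp h8) Computable.encode
  refine ⟨Classical.decPred _, h9.of_eq fun c => ?_⟩
  -- correctness
  set s := (Nat.rfind fun s =>
      Part.some (decide (Tr s) && decide (Encodable.encode c < f s))).get (hdom c) with hsdef
  have hs1 : Tr s ∧ Encodable.encode c < f s := by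
    have := Nat.rfind_spec (Part.get_mem (hdom c))
    rw [← hsdef] at this
    simpa using this
  have hcc : Denumerable.ofNat Code (Encodable.encode c) = c := Denumerable.ofNat_encode c
  have hiff := hs_iff (Encodable.encode c)
  rw [hcc] at hiff
  classical
  by_cases hdomc : (c.eval 0).Dom
  · have hex := hiff.2 hdomc
    set k := Nat.find hex with hk
    have hk1 : hs k (Encodable.encode c) = true := Nat.find_spec hex
    have hkpos : k ≠ 0 := by
      intro h0
      rw [h0] at hk1
      unfold hs at hk1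
      rw [Code.evaln] at hk1
      simp at hk1
    obtain ⟨j, hj⟩ := Nat.exists_eq_succ_of_ne_zero hkpos
    have hj1 : hs j (Encodable.encode c) = false := by
      have := Nat.find_min hex (m := j) (by rw [← hk, hj]; exact Nat.lt_succ_self j)
      simpa using this
    have hft : f (Nat.pair (Encodable.encode c) j) = Encodable.encode c := by
      unfold f
      rw [Nat.unpair_pair]
      simp only
      rw [if_pos]
      rw [hj1]
      have : hs (j + 1) (Encodable.encode c) = true := by rw [← Nat.succ_eq_add_one, ← hj]; exact hk1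
      rw [this]; rfl
    have hle : Nat.pair (Encodable.encode c) j ≤ s := by
      by_contra hlt
      have := hs1.1 _ (not_le.1 hlt)
      rw [hft] at this
      omega
    have hj2 : j ≤ s := le_trans (Nat.right_le_pair _ _) hle
    have h10 : hs (s + 1) (Encodable.encode c) = true := hs_mono (by omega) hk1
    rw [h10]
    simp [hdomc]
  · have h10 : hs (s + 1) (Encodable.encode c) = false := by
      by_contra hne
      exact hdomc (hiff.1 ⟨_, by simpa using hne⟩)
    rw [h10]
    simp [hdomc]

/-- finiteness of a member of `FC` is an invariant of isomorphisms onto the algebra of finite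
and cofinite sets -/
theorem finite_iff_of_iso (ψ : FC → Set ℕ) (hinj : Function.Injective ψ)
    (hsup : ∀ a b, ψ (a ⊔ b) = ψ a ∪ ψ b) (hran : ∀ X, X ∈ Set.range ψ ↔ X ∈ FC) (a : FC) :
    (a : Set ℕ).Finite ↔ (ψ a).Finite := by
  have hle : ∀ b, b ≤ a ↔ ψ b ⊆ ψ a := by
    intro b
    rw [← sup_eq_right, ← hinj.eq_iff, hsup, Set.union_eq_right]
  have hfinset : ∀ Y : Set ℕ, (∀ y ∈ Y, ({y} : Set ℕ) ∈ {Z : Set ℕ | Z ∈ FC ∧ Z ⊆ Y}) :=
    fun Y y hy => ⟨Or.inl (Set.finite_singleton y), by simpa using hy⟩
  have h1 : ∀ Y : Set ℕ, {Z : Set ℕ | Z ∈ FC ∧ Z ⊆ Y}.Finite ↔ Y.Finite := by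
    intro Y
    constructor
    · intro h
      have h2 : ((fun y : ℕ => ({y} : Set ℕ)) '' Y).Finite := by
        refine h.subset ?_
        rintro _ ⟨y, hy, rfl⟩
        exact hfinset Y y hy
      exact Set.Finite.of_finite_image h2 (Set.singleton_injective.injOn)
    · intro h
      exact h.finite_subsets.subset fun Z hZ => hZ.2
  have h2 : {Z : Set ℕ | Z ∈ FC ∧ Z ⊆ ψ a} = ψ '' {b | b ≤ a} := by
    ext Z
    constructor
    · rintro ⟨hZ1, hZ2⟩
      obtain ⟨b, rfl⟩ := (hran Z).2 hZ1
      exact ⟨b, (hle b).2 hZ2, rfl⟩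
    · rintro ⟨b, hb, rfl⟩
      exact ⟨(hran _).1 ⟨b, rfl⟩, (hle b).1 hb⟩
  have h3 : {Z : Set ℕ | Z ∈ FC ∧ Z ⊆ (a : Set ℕ)} = (fun b : FC => (b : Set ℕ)) '' {b | b ≤ a} := by
    ext Z
    constructor
    · rintro ⟨hZ1, hZ2⟩
      exact ⟨⟨Z, hZ1⟩, hZ2, rfl⟩
    · rintro ⟨b, hb, rfl⟩
      exact ⟨b.2, hb⟩
  rw [← h1 (a : Set ℕ), ← h1 (ψ a), h2, h3,
    Set.finite_image_iff (Subtype.val_injective.injOn), Set.finite_image_iff hinj.injOn]

/-- the main argument: no computable copy of `ω` works -/
theorem no_copy (l : ℕ → ℕ) (ψ : FC → Set ℕ) (hinj : Function.Injective ψ)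
    (hsup : ∀ a b, ψ (a ⊔ b) = ψ a ∪ ψ b) (hran : Set.range ψ = Std)
    (c : ℕ → List ℕ × Bool) (hc : Computable c)
    (h : ∀ n : ℕ, ψ (e n) = {x : ℕ | Xor' ((c n).2 = true)
      (Odd ((c n).1.filter (fun s => decide (l s ≤ x))).length)}) : False := by
  apply not_computable_finite
  have hran' : ∀ X, X ∈ Set.range ψ ↔ X ∈ FC := fun X => by rw [hran, mem_Std]
  have h1 : ∀ n, (e n : Set ℕ).Finite ↔ ((c n).2 = true ↔ Odd (c n).1.length) := fun n => by
    rw [finite_iff_of_iso ψ hinj hsup hran' (e n), h n, finite_toggles]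
  have h2 : PrimrecPred fun p : List ℕ × Bool => (p.2 = true ↔ Odd p.1.length) := by
    have p1 : PrimrecPred fun p : List ℕ × Bool => p.2 = true :=
      Primrec.eq.comp Primrec.snd (Primrec.const true)
    have p2 : PrimrecPred fun p : List ℕ × Bool => Odd p.1.length := by
      have : PrimrecPred fun p : List ℕ × Bool => p.1.length % 2 = 1 :=
        Primrec.eq.comp (Primrec.nat_mod.comp (Primrec.list_length.comp Primrec.fst)
          (Primrec.const 2)) (Primrec.const 1)
      exact this.of_eq fun p => by rw [Nat.odd_iff]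
    exact ((p1.and p2).or (p1.not.and p2.not)).of_eq fun p => by tauto
  obtain ⟨D, hD⟩ := h2
  refine ⟨Classical.decPred _, ?_⟩
  refine (hD.to_comp.comp hc).of_eq fun n => ?_
  by_cases hn : (e n : Set ℕ).Finite
  · have := (h1 n).1 hn
    simp only [this, hn, decide_true]
  · have : ¬ ((c n).2 = true ↔ Odd (c n).1.length) := fun h' => hn ((h1 n).2 h')
    simp only [this, hn, decide_false]

end Pool.Agent.V5helper69.IA
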